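import Pool.Agent.H401Z.Vis.Geo

set_option autoImplicit false

namespace Pool.Agent.H401Z.Vis

open Finset MvPolynomial

abbrev R6 := MvPolynomial (Fin 6) ℚ

noncomputable def th : Fin 3 → R6 :=
  ![X 0 - X 4 + X 5, X 1 + X 3 - X 5, X 2 - X 3 + X 4]

lemma th_hom (i : Fin 3) : (th i).IsHomogeneous 1 := by
  have h : ∀ v : Fin 6, (X v : R6).IsHomogeneous 1 := fun v => isHomogeneous_X ℚ v
  fin_cases i
  · exact ((h 0).sub (h 4)).add (h 5)
  · exact ((h 1).add (h 3)).sub (h 5)
  · exact ((h 2).sub (h 3)).add (h 4)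

noncomputable def JJ : Ideal R6 :=
  Ideal.span ((fun S : Finset (Fin 6) => ∏ i ∈ S, (X i : R6)) '' {S : Finset (Fin 6) | S ∉ Del}) ⊔
    Ideal.span (Set.range th)

lemma nonface_zero (S : Finset (Fin 6)) (h : ¬ Face S) :
    Ideal.Quotient.mk JJ (∏ i ∈ S, (X i : R6)) = 0 := by
  rw [Ideal.Quotient.eq_zero_iff_mem]
  exact Ideal.mem_sup_left (Ideal.subset_span ⟨S, by simpa [mem_Del] using h, rfl⟩)

lemma th_zero (i : Fin 3) : Ideal.Quotient.mk JJ (th i) = 0 := by
  rw [Ideal.Quotient.eq_zero_iff_mem]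
  exact Ideal.mem_sup_right (Ideal.subset_span ⟨i, rfl⟩)

lemma fin_quot : Module.Finite ℚ (R6 ⧸ JJ) := by
  set m := Ideal.Quotient.mk JJ with hm
  have n1 : m (X 0) * m (X 5) = 0 := by
    have := nonface_zero {0, 5} (by decide)
    rwa [prod_pair (by decide), map_mul] at this
  have n2 : m (X 1) * m (X 3) = 0 := by
    have := nonface_zero {1, 3} (by decide)
    rwa [prod_pair (by decide), map_mul] at this
  have n3 : m (X 2) * m (X 4) = 0 := by
    have := nonface_zero {2, 4} (by decide)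
    rwa [prod_pair (by decide), map_mul] at this
  have n4 : m (X 3) * (m (X 4) * m (X 5)) = 0 := by
    have := nonface_zero {3, 4, 5} (by decide)
    rwa [prod_insert (by decide), prod_pair (by decide), map_mul, map_mul] at this
  have t1 : m (X 0) - m (X 4) + m (X 5) = 0 := by
    have := th_zero 0
    simpa only [th, Matrix.cons_val_zero, map_add, map_sub] using this
  have t2 : m (X 1) + m (X 3) - m (X 5) = 0 := by
    have := th_zero 1
    simpa only [th, Matrix.cons_val_one, Matrix.cons_val_zero, map_add, map_sub] using this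
  have t3 : m (X 2) - m (X 3) + m (X 4) = 0 := by
    have := th_zero 2
    simpa only [th, Matrix.cons_val, map_add, map_sub] using this
  have r1 : m (X 4) * m (X 5) = m (X 5) ^ 2 := by linear_combination n1 - m (X 5) * t1
  have r2 : m (X 5) * m (X 3) = m (X 3) ^ 2 := by linear_combination n2 - m (X 3) * t2
  have r3 : m (X 3) * m (X 4) = m (X 4) ^ 2 := by linear_combination n3 - m (X 4) * t3
  have c3 : m (X 3) ^ 3 = 0 := by
    linear_combination n4 - m (X 3) * r1 - (m (X 3) + m (X 5)) * r2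
  have c4 : m (X 4) ^ 3 = 0 := by
    linear_combination n4 - m (X 4) * r2 - (m (X 4) + m (X 3)) * r3
  have c5 : m (X 5) ^ 3 = 0 := by
    linear_combination n4 - m (X 5) * r3 - (m (X 5) + m (X 4)) * r1
  have nil : ∀ z : R6 ⧸ JJ, z ^ 3 = 0 → IsIntegral ℚ z := fun z hz =>
    IsIntegral.of_pow (by norm_num : 0 < 3) (hz ▸ isIntegral_zero)
  have i3 := nil _ c3
  have i4 := nil _ c4
  have i5 := nil _ c5
  have i0 : IsIntegral ℚ (m (X 0)) := by
    have : m (X 0) = m (X 4) - m (X 5) := by linear_combination t1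
    rw [this]; exact i4.sub i5
  have i1 : IsIntegral ℚ (m (X 1)) := by
    have : m (X 1) = m (X 5) - m (X 3) := by linear_combination t2
    rw [this]; exact i5.sub i3
  have i2 : IsIntegral ℚ (m (X 2)) := by
    have : m (X 2) = m (X 3) - m (X 4) := by linear_combination t3
    rw [this]; exact i3.sub i4
  have iall : ∀ v, IsIntegral ℚ (m (X v)) := by
    intro v; fin_cases v <;> assumption
  have : Algebra.IsIntegral ℚ (R6 ⧸ JJ) := by
    refine ⟨fun z => ?_⟩
    obtain ⟨g, rfl⟩ := Ideal.Quotient.mk_surjective z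
    induction g using MvPolynomial.induction_on with
    | C a => exact isIntegral_algebraMap (x := a)
    | add p q hp hq => rw [map_add]; exact hp.add hq
    | mul_X p v hp => rw [map_mul]; exact hp.mul (iall v)
  exact Algebra.IsIntegral.finite

noncomputable def ps : R6 →ₐ[ℚ] Polynomial ℚ :=
  aeval fun v : Fin 6 => if 3 ≤ v then Polynomial.X else 0

lemma ps_prod (G : Finset (Fin 6)) :
    ps (∏ i ∈ G, (X i : R6)) = if ∀ v ∈ G, 3 ≤ v then Polynomial.X ^ G.card else 0 := by
  rw [map_prod]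
  simp only [ps, aeval_X]
  split_ifs with h
  · rw [prod_congr rfl (fun v hv => if_pos (h v hv)), prod_const]
  · push Not at h
    obtain ⟨v, hv, h⟩ := h
    exact prod_eq_zero hv (if_neg (not_le.2 h))

lemma nonface_up : ∀ S : Finset (Fin 6), ¬ Face S → (∀ v ∈ S, 3 ≤ v) → S.card = 3 := by
  decide +kernel

lemma ps_J {g : R6} (hg : g ∈ JJ) : (ps g).coeff 2 = 0 := by
  have : JJ ≤ (Ideal.span {(Polynomial.X : Polynomial ℚ) ^ 3}).comap ps := by
    refine sup_le (Ideal.span_le.2 ?_) (Ideal.span_le.2 ?_)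
    · rintro _ ⟨S, hS, rfl⟩
      simp only [SetLike.mem_coe, Ideal.mem_comap, ps_prod]
      split_ifs with h
      · rw [nonface_up S (by simpa [mem_Del] using hS) h]
        exact Ideal.subset_span rfl
      · exact Ideal.zero_mem _
    · rintro _ ⟨i, rfl⟩
      simp only [SetLike.mem_coe, Ideal.mem_comap]
      have : ps (th i) = 0 := by
        fin_cases i <;> simp [th, ps]
      rw [this]; exact Ideal.zero_mem _
  have h := this hg
  rw [Ideal.mem_comap, Ideal.mem_span_singleton, Polynomial.X_pow_dvd_iff] at h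
  exact h 2 (by norm_num)

lemma up_pair : ∀ F : Finset (Fin 6), Face F → F.card = 3 → ∀ G : Finset (Fin 6), G ⊆ F →
    (∀ v ∈ G, 3 ≤ v) → G.card = 2 →
    (3 ∈ G ∧ F.erase 3 = {0, 4}) ∨ (4 ∈ G ∧ F.erase 4 = {1, 5}) ∨ (5 ∈ G ∧ F.erase 5 = {2, 3}) := by
  decide +kernel

lemma coeff_vis (F G : Finset (Fin 6)) (hF : Face F) (hc : F.card = 3) (hG : G ⊆ F)
    (hv : ∀ v ∈ G, (affineSpan ℝ (pt '' ((F.erase v : Finset (Fin 6)) : Set (Fin 6)))).SOppSide
      x0 (pt v)) :
    (ps (∏ i ∈ G, (X i : R6))).coeff 2 = 0 := by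
  rw [ps_prod]
  split_ifs with h
  · rw [Polynomial.coeff_X_pow, if_neg]
    intro h2
    rcases up_pair F hF hc G hG h h2.symm with ⟨h3, e⟩ | ⟨h3, e⟩ | ⟨h3, e⟩
    · have := hv _ h3
      rw [e] at this
      exact not_opp (a := -3) (b := -5) (c := 90) (by decide) 3 (by decide) (by decide) this
    · have := hv _ h3
      rw [e] at this
      exact not_opp (a := 5) (b := 2) (c := -60) (by decide) 4 (by decide) (by decide) this
    · have := hv _ h3
      rw [e] at this
      exact not_opp (a := -2) (b := 3) (c := 0) (by decide) 5 (by decide) (by decide) this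
  · simp

lemma not_span {ι : Type} (f : ι → R6 ⧸ JJ)
    (hf : ∀ i, ∃ g : R6, Ideal.Quotient.mk JJ g = f i ∧ (ps g).coeff 2 = 0) :
    Submodule.span ℚ (Set.range f) ≠ ⊤ := by
  intro h
  have key : ∀ q ∈ Submodule.span ℚ (Set.range f),
      ∃ g : R6, Ideal.Quotient.mk JJ g = q ∧ (ps g).coeff 2 = 0 := by
    intro q hq
    induction hq using Submodule.span_induction with
    | mem q hq => obtain ⟨i, rfl⟩ := hq; exact hf i
    | zero => exact ⟨0, by simp, by simp⟩
    | add a b _ _ ha hb =>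
      obtain ⟨g, rfl, hg⟩ := ha
      obtain ⟨g', rfl, hg'⟩ := hb
      exact ⟨g + g', by simp, by simp [hg, hg']⟩
    | smul a b _ hb =>
      obtain ⟨g, rfl, hg⟩ := hb
      exact ⟨a • g, rfl, by simp [hg]⟩
  obtain ⟨g, hg, hg0⟩ := key (Ideal.Quotient.mk JJ (X 3 * X 4)) (h ▸ Submodule.mem_top)
  have h1 := ps_J (Ideal.Quotient.eq.1 hg)
  rw [map_sub, Polynomial.coeff_sub, hg0] at h1
  have h2 : ps (X 3 * X 4) = Polynomial.X ^ 2 := by
    simp [ps, sq]
  rw [h2] at h1
  simp at h1

end Pool.Agent.H401Z.Vis
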