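import Mathlib

set_option autoImplicit false

namespace Pool.Agent.H401Z.Vis

open Finset

def pxZ : Fin 6 → ℤ := ![15, 6, 9, 0, 30, 0]
def pyZ : Fin 6 → ℤ := ![9, 15, 6, 0, 0, 30]

noncomputable def pt (i : Fin 6) : EuclideanSpace ℝ (Fin 2) := !₂[(pxZ i : ℝ), (pyZ i : ℝ)]

noncomputable def x0 : EuclideanSpace ℝ (Fin 2) := !₂[10, 10]

@[simp] lemma pt_zero (i : Fin 6) : pt i 0 = pxZ i := rfl
@[simp] lemma pt_one (i : Fin 6) : pt i 1 = pyZ i := rfl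
@[simp] lemma x0_zero : x0 0 = 10 := rfl
@[simp] lemma x0_one : x0 1 = 10 := rfl

/-- being contained in one of the seven triangles -/
def Face (S : Finset (Fin 6)) : Prop :=
  (3 ∉ S ∧ 4 ∉ S ∧ 5 ∉ S) ∨ (1 ∉ S ∧ 2 ∉ S ∧ 5 ∉ S) ∨ (2 ∉ S ∧ 3 ∉ S ∧ 5 ∉ S) ∨
  (0 ∉ S ∧ 2 ∉ S ∧ 3 ∉ S) ∨ (0 ∉ S ∧ 3 ∉ S ∧ 4 ∉ S) ∨ (0 ∉ S ∧ 1 ∉ S ∧ 4 ∉ S) ∨
  (1 ∉ S ∧ 4 ∉ S ∧ 5 ∉ S)

instance : DecidablePred Face := fun S => by unfold Face; infer_instance

def Del : Finset (Finset (Fin 6)) := univ.filter Face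

lemma mem_Del {S : Finset (Fin 6)} : S ∈ Del ↔ Face S := by simp [Del]

lemma Face.mono {S T : Finset (Fin 6)} (h : Face S) (hT : T ⊆ S) : Face T := by
  have key : ∀ v, v ∉ S → v ∉ T := fun v hv hv' => hv (hT hv')
  unfold Face at h ⊢
  rcases h with h | h | h | h | h | h | h <;> obtain ⟨h1, h2, h3⟩ := h <;>
    have h1 := key _ h1 <;> have h2 := key _ h2 <;> have h3 := key _ h3 <;> tauto

lemma face_single : ∀ i : Fin 6, Face {i} := by decide

lemma face_card : ∀ S : Finset (Fin 6), Face S → S.card ≤ 3 := by decide +kernel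

/-- support condition on weights -/
def Sup (w : Fin 6 → ℝ) : Prop :=
  (w 3 = 0 ∧ w 4 = 0 ∧ w 5 = 0) ∨ (w 1 = 0 ∧ w 2 = 0 ∧ w 5 = 0) ∨ (w 2 = 0 ∧ w 3 = 0 ∧ w 5 = 0) ∨
  (w 0 = 0 ∧ w 2 = 0 ∧ w 3 = 0) ∨ (w 0 = 0 ∧ w 3 = 0 ∧ w 4 = 0) ∨ (w 0 = 0 ∧ w 1 = 0 ∧ w 4 = 0) ∨
  (w 1 = 0 ∧ w 4 = 0 ∧ w 5 = 0)

lemma sup_of {S : Finset (Fin 6)} (h : Face S) {w : Fin 6 → ℝ} (hw : ∀ v, v ∉ S → w v = 0) :
    Sup w := by
  unfold Face at h
  unfold Sup
  rcases h with h | h | h | h | h | h | h <;> obtain ⟨h1, h2, h3⟩ := h <;>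
    have h1 := hw _ h1 <;> have h2 := hw _ h2 <;> have h3 := hw _ h3 <;> tauto

lemma sum_coord (w : Fin 6 → ℝ) :
    (∑ i, w i • pt i) 0 = 15 * w 0 + 6 * w 1 + 9 * w 2 + 30 * w 4 ∧
    (∑ i, w i • pt i) 1 = 9 * w 0 + 15 * w 1 + 6 * w 2 + 30 * w 5 := by
  constructor
  · simp [Fin.sum_univ_six, pxZ]
    ring
  · simp [Fin.sum_univ_six, pyZ]
    ring

lemma mem_hull {S : Finset (Fin 6)} {z : EuclideanSpace ℝ (Fin 2)} :
    z ∈ convexHull ℝ (pt '' (S : Set (Fin 6))) ↔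
      ∃ w : Fin 6 → ℝ, (∀ i, 0 ≤ w i) ∧ (∀ i, i ∉ S → w i = 0) ∧ ∑ i, w i = 1 ∧
        ∑ i, w i • pt i = z := by
  constructor
  · intro hz
    have hc : Convex ℝ {z : EuclideanSpace ℝ (Fin 2) | ∃ w : Fin 6 → ℝ, (∀ i, 0 ≤ w i) ∧
        (∀ i, i ∉ S → w i = 0) ∧ ∑ i, w i = 1 ∧ ∑ i, w i • pt i = z} := by
      rintro u ⟨w, hw0, hwS, hw1, rfl⟩ v ⟨w', hw0', hwS', hw1', rfl⟩ a b ha hb hab
      refine ⟨fun i => a * w i + b * w' i, fun i => ?_, fun i hi => ?_, ?_, ?_⟩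
      · have := hw0 i; have := hw0' i; positivity
      · simp [hwS i hi, hwS' i hi]
      · rw [sum_add_distrib, ← mul_sum, ← mul_sum, hw1, hw1']; linarith
      · simp only [add_smul, mul_smul, sum_add_distrib, smul_sum]
    refine convexHull_min ?_ hc hz
    rintro _ ⟨v, hv, rfl⟩
    refine ⟨fun i => if i = v then 1 else 0, fun i => ?_, fun i hi => ?_, ?_, ?_⟩
    · dsimp only; split_ifs <;> norm_num
    · have : i ≠ v := fun h => hi (h ▸ hv)
      simp [this]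
    · simp
    · simp [ite_smul]
  · rintro ⟨w, hw0, hwS, hw1, rfl⟩
    have e1 : ∑ i, w i • pt i = ∑ i ∈ S, w i • pt i := by
      symm
      refine sum_subset (subset_univ _) fun i _ hi => by simp [hwS i hi]
    have e2 : ∑ i ∈ S, w i = 1 := by
      rw [← hw1]
      refine sum_subset (subset_univ _) fun i _ hi => hwS i hi
    rw [e1]
    refine (convex_convexHull ℝ _).sum_mem (fun i _ => hw0 i) e2 fun i hi => ?_
    exact subset_convexHull ℝ _ ⟨i, hi, rfl⟩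

lemma uniq (w u : Fin 6 → ℝ) (hw : ∀ i, 0 ≤ w i) (hu : ∀ i, 0 ≤ u i) (sw : Sup w) (su : Sup u)
    (h1 : ∑ i, w i = ∑ i, u i) (h2 : ∑ i, w i • pt i = ∑ i, u i • pt i) : w = u := by
  have hx : (∑ i, w i • pt i) 0 = (∑ i, u i • pt i) 0 := by rw [h2]
  have hy : (∑ i, w i • pt i) 1 = (∑ i, u i • pt i) 1 := by rw [h2]
  rw [(sum_coord w).1, (sum_coord u).1] at hx
  rw [(sum_coord w).2, (sum_coord u).2] at hy
  simp only [Fin.sum_univ_six] at h1
  have w0 := hw 0; have w1 := hw 1; have w2 := hw 2; have w3 := hw 3; have w4 := hw 4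
  have w5 := hw 5
  have u0 := hu 0; have u1 := hu 1; have u2 := hu 2; have u3 := hu 3; have u4 := hu 4
  have u5 := hu 5
  have key : w 0 = u 0 ∧ w 1 = u 1 ∧ w 2 = u 2 ∧ w 3 = u 3 ∧ w 4 = u 4 ∧ w 5 = u 5 := by
    unfold Sup at sw su
    clear hw hu h2
    generalize w 0 = a0 at *
    generalize w 1 = a1 at *
    generalize w 2 = a2 at *
    generalize w 3 = a3 at *
    generalize w 4 = a4 at *
    generalize w 5 = a5 at *
    generalize u 0 = b0 at *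
    generalize u 1 = b1 at *
    generalize u 2 = b2 at *
    generalize u 3 = b3 at *
    generalize u 4 = b4 at *
    generalize u 5 = b5 at *
    rcases sw with h | h | h | h | h | h | h <;> obtain ⟨rfl, rfl, rfl⟩ := h <;>
    rcases su with h | h | h | h | h | h | h <;> obtain ⟨rfl, rfl, rfl⟩ := h <;>
    refine ⟨?_, ?_, ?_, ?_, ?_, ?_⟩ <;> linarith
  obtain ⟨k0, k1, k2, k3, k4, k5⟩ := key
  funext i
  fin_cases i <;> assumption

lemma hull_inter {S T : Finset (Fin 6)} (hS : Face S) (hT : Face T) :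
    convexHull ℝ (pt '' (S : Set (Fin 6))) ∩ convexHull ℝ (pt '' (T : Set (Fin 6))) =
      convexHull ℝ (pt '' ((S ∩ T : Finset (Fin 6)) : Set (Fin 6))) := by
  apply Set.Subset.antisymm
  · rintro z ⟨h1, h2⟩
    obtain ⟨w, hw0, hwS, hw1, hwz⟩ := mem_hull.1 h1
    obtain ⟨u, hu0, huT, hu1, huz⟩ := mem_hull.1 h2
    have e : w = u := uniq w u hw0 hu0 (sup_of hS hwS) (sup_of hT huT) (by rw [hw1, hu1])
      (by rw [hwz, huz])
    subst e
    refine mem_hull.2 ⟨w, hw0, fun i hi => ?_, hw1, hwz⟩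
    by_cases h : i ∈ S
    · exact huT i fun h' => hi (mem_inter.2 ⟨h, h'⟩)
    · exact hwS i h
  · refine Set.subset_inter (convexHull_mono (Set.image_mono ?_)) (convexHull_mono (Set.image_mono ?_))
    · exact_mod_cast inter_subset_left
    · exact_mod_cast inter_subset_right

lemma aff_indep {S : Finset (Fin 6)} (hS : Face S) :
    AffineIndependent ℝ (fun i : (S : Set (Fin 6)) => pt i) := by
  rw [affineIndependent_iff]
  intro s w hw0 hw1
  classical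
  let W : Fin 6 → ℝ := fun v => if h : v ∈ (S : Set (Fin 6)) then (if ⟨v, h⟩ ∈ s then w ⟨v, h⟩ else 0) else 0
  have hW : ∀ a : (S : Set (Fin 6)), W a = if a ∈ s then w a else 0 := fun a => by
    simp only [W]; rw [dif_pos a.2]
  have hWS : ∀ v, v ∉ S → W v = 0 := fun v hv => by
    simp only [W]; rw [dif_neg (by simpa using hv)]
  have s1 : ∑ v, W v = 0 := by
    rw [← sum_subset (subset_univ S) (fun i _ hi => hWS i hi),
      Finset.sum_subtype S (p := fun v => v ∈ (S : Set (Fin 6))) (by simp) W]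
    simp only [hW]
    rw [sum_ite_mem, univ_inter]; exact hw0
  have s2 : ∑ v, W v • pt v = 0 := by
    rw [← sum_subset (subset_univ S) (fun i _ hi => by simp [hWS i hi]),
      Finset.sum_subtype S (p := fun v => v ∈ (S : Set (Fin 6))) (by simp) (fun v => W v • pt v)]
    simp only [hW, ite_smul, zero_smul]
    rw [sum_ite_mem, univ_inter]; exact hw1
  have hx : (∑ i, W i • pt i) 0 = 0 := by rw [s2]; rfl
  have hy : (∑ i, W i • pt i) 1 = 0 := by rw [s2]; rfl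
  rw [(sum_coord W).1] at hx
  rw [(sum_coord W).2] at hy
  have sw := sup_of hS hWS
  simp only [Fin.sum_univ_six] at s1
  have key : W 0 = 0 ∧ W 1 = 0 ∧ W 2 = 0 ∧ W 3 = 0 ∧ W 4 = 0 ∧ W 5 = 0 := by
    unfold Sup at sw
    rcases sw with h | h | h | h | h | h | h <;> obtain ⟨h1, h2, h3⟩ := h <;>
    refine ⟨?_, ?_, ?_, ?_, ?_, ?_⟩ <;> linarith
  have hall : ∀ v, W v = 0 := by
    obtain ⟨k0, k1, k2, k3, k4, k5⟩ := key
    intro i
    fin_cases i <;> assumption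
  intro e he
  have := hW e
  rw [hall, if_pos he] at this
  exact this.symm

lemma cover (x y : ℝ) (h1 : 0 ≤ x) (h2 : 0 ≤ y) (h3 : x + y ≤ 30) :
    (0 ≤ (3) * x + (1) * y + (-33) ∧ 0 ≤ (-1) * x + (2) * y + (-3) ∧ 0 ≤ (-2) * x + (-3) * y + (57)) ∨
    (0 ≤ (0) * x + (1) * y + (0) ∧ 0 ≤ (-3) * x + (-5) * y + (90) ∧ 0 ≤ (3) * x + (-5) * y + (0)) ∨
    ((-2) * x + (-3) * y + (57) ≤ 0 ∧ (-3) * x + (-5) * y + (90) ≤ 0 ∧ (5) * x + (8) * y + (-150) ≤ 0) ∨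
    (0 ≤ (5) * x + (8) * y + (-150) ∧ 0 ≤ (-1) * x + (-1) * y + (30) ∧ 0 ≤ (5) * x + (2) * y + (-60)) ∨
    ((3) * x + (1) * y + (-33) ≤ 0 ∧ (5) * x + (2) * y + (-60) ≤ 0 ∧ (-8) * x + (-3) * y + (90) ≤ 0) ∨
    (0 ≤ (-8) * x + (-3) * y + (90) ∧ 0 ≤ (1) * x + (0) * y + (0) ∧ 0 ≤ (-2) * x + (3) * y + (0)) ∨
    ((-1) * x + (2) * y + (-3) ≤ 0 ∧ (-2) * x + (3) * y + (0) ≤ 0 ∧ (3) * x + (-5) * y + (0) ≤ 0) := by
  rcases le_total 0 ((-2) * x + (-3) * y + (57)) with g1 | g1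
  · rcases le_total 0 ((-1) * x + (2) * y + (-3)) with g2 | g2
    · rcases le_total 0 ((3) * x + (1) * y + (-33)) with g3 | g3
      · exact Or.inl ⟨by linarith, by linarith, by linarith⟩
      · rcases le_total 0 ((-8) * x + (-3) * y + (90)) with g4 | g4
        · exact Or.inr (Or.inr (Or.inr (Or.inr (Or.inr (Or.inl ⟨by linarith, by linarith, by linarith⟩)))))
        · exact Or.inr (Or.inr (Or.inr (Or.inr (Or.inl ⟨by linarith, by linarith, by linarith⟩))))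
    · rcases le_total 0 ((3) * x + (-5) * y + (0)) with g5 | g5
      · exact Or.inr (Or.inl ⟨by linarith, by linarith, by linarith⟩)
      · rcases le_total 0 ((-2) * x + (3) * y + (0)) with g6 | g6
        · exact Or.inr (Or.inr (Or.inr (Or.inr (Or.inr (Or.inl ⟨by linarith, by linarith, by linarith⟩)))))
        · exact Or.inr (Or.inr (Or.inr (Or.inr (Or.inr (Or.inr (⟨by linarith, by linarith, by linarith⟩))))))
  · rcases le_total 0 ((-3) * x + (-5) * y + (90)) with g7 | g7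
    · exact Or.inr (Or.inl ⟨by linarith, by linarith, by linarith⟩)
    · rcases le_total 0 ((5) * x + (8) * y + (-150)) with g8 | g8
      · rcases le_total 0 ((5) * x + (2) * y + (-60)) with g9 | g9
        · exact Or.inr (Or.inr (Or.inr (Or.inl ⟨by linarith, by linarith, by linarith⟩)))
        · rcases le_total 0 ((-8) * x + (-3) * y + (90)) with g10 | g10
          · exact Or.inr (Or.inr (Or.inr (Or.inr (Or.inr (Or.inl ⟨by linarith, by linarith, by linarith⟩)))))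
          · exact Or.inr (Or.inr (Or.inr (Or.inr (Or.inl ⟨by linarith, by linarith, by linarith⟩))))
      · exact Or.inr (Or.inr (Or.inl ⟨by linarith, by linarith, by linarith⟩))

lemma hull_of (S : Finset (Fin 6)) (z : EuclideanSpace ℝ (Fin 2)) (w : Fin 6 → ℝ)
    (h0 : ∀ i, 0 ≤ w i) (hS : ∀ i, i ∉ S → w i = 0)
    (h1 : w 0 + w 1 + w 2 + w 3 + w 4 + w 5 = 1)
    (hx : 15 * w 0 + 6 * w 1 + 9 * w 2 + 30 * w 4 = z 0)
    (hy : 9 * w 0 + 15 * w 1 + 6 * w 2 + 30 * w 5 = z 1) :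
    z ∈ convexHull ℝ (pt '' (S : Set (Fin 6))) := by
  refine mem_hull.2 ⟨w, h0, hS, by simpa only [Fin.sum_univ_six] using h1, ?_⟩
  ext i
  fin_cases i
  · exact (sum_coord w).1.trans hx
  · exact (sum_coord w).2.trans hy

lemma union_eq : (⋃ S ∈ Del, convexHull ℝ (pt '' (S : Set (Fin 6)))) =
    {z : EuclideanSpace ℝ (Fin 2) | 0 ≤ z 0 ∧ 0 ≤ z 1 ∧ z 0 + z 1 ≤ 30} := by
  ext z
  simp only [Set.mem_iUnion, Set.mem_ofPred_eq, mem_Del, exists_prop]
  constructor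
  · rintro ⟨S, -, hz⟩
    obtain ⟨w, hw0, -, hw1, rfl⟩ := mem_hull.1 hz
    rw [(sum_coord w).1, (sum_coord w).2]
    simp only [Fin.sum_univ_six] at hw1
    have w0 := hw0 0; have w1 := hw0 1; have w2 := hw0 2; have w3 := hw0 3; have w4 := hw0 4
    have w5 := hw0 5
    refine ⟨by linarith, by linarith, by linarith⟩
  · rintro ⟨h1, h2, h3⟩
    rcases cover (z 0) (z 1) h1 h2 h3 with h | h | h | h | h | h | h <;> obtain ⟨g1, g2, g3⟩ := h
    · refine ⟨{0, 1, 2}, by decide, hull_of _ z ![(3 * z 0 + z 1 - 33) / 21,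
        (-z 0 + 2 * z 1 - 3) / 21, (-2 * z 0 - 3 * z 1 + 57) / 21, 0, 0, 0] ?_ ?_ ?_ ?_ ?_⟩
      · intro i; fin_cases i <;> simp <;> linarith
      · intro i; fin_cases i <;> simp
      all_goals simp; ring
    · refine ⟨{0, 3, 4}, by decide, hull_of _ z ![z 1 / 9, 0, 0, (-3 * z 0 - 5 * z 1 + 90) / 90,
        (3 * z 0 - 5 * z 1) / 90, 0] ?_ ?_ ?_ ?_ ?_⟩
      · intro i; fin_cases i <;> simp <;> linarith
      · intro i; fin_cases i <;> simp
      all_goals simp; ring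
    · refine ⟨{0, 1, 4}, by decide, hull_of _ z ![(150 - 5 * z 0 - 8 * z 1) / 3,
        (3 * z 0 + 5 * z 1 - 90) / 3, 0, 0, (2 * z 0 + 3 * z 1 - 57) / 3, 0] ?_ ?_ ?_ ?_ ?_⟩
      · intro i; fin_cases i <;> simp <;> linarith
      · intro i; fin_cases i <;> simp
      all_goals simp; ring
    · refine ⟨{1, 4, 5}, by decide, hull_of _ z ![0, (30 - z 0 - z 1) / 9, 0, 0,
        (5 * z 0 + 2 * z 1 - 60) / 90, (5 * z 0 + 8 * z 1 - 150) / 90] ?_ ?_ ?_ ?_ ?_⟩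
      · intro i; fin_cases i <;> simp <;> linarith
      · intro i; fin_cases i <;> simp
      all_goals simp; ring
    · refine ⟨{1, 2, 5}, by decide, hull_of _ z ![0, (8 * z 0 + 3 * z 1 - 90) / 3,
        (60 - 5 * z 0 - 2 * z 1) / 3, 0, 0, (33 - 3 * z 0 - z 1) / 3] ?_ ?_ ?_ ?_ ?_⟩
      · intro i; fin_cases i <;> simp <;> linarith
      · intro i; fin_cases i <;> simp
      all_goals simp; ring
    · refine ⟨{2, 5, 3}, by decide, hull_of _ z ![0, 0, z 0 / 9, (90 - 8 * z 0 - 3 * z 1) / 90, 0,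
        (-2 * z 0 + 3 * z 1) / 90] ?_ ?_ ?_ ?_ ?_⟩
      · intro i; fin_cases i <;> simp <;> linarith
      · intro i; fin_cases i <;> simp
      all_goals simp; ring
    · refine ⟨{2, 0, 3}, by decide, hull_of _ z ![(2 * z 0 - 3 * z 1) / 3, 0,
        (5 * z 1 - 3 * z 0) / 3, (z 0 - 2 * z 1 + 3) / 3, 0, 0] ?_ ?_ ?_ ?_ ?_⟩
      · intro i; fin_cases i <;> simp <;> linarith
      · intro i; fin_cases i <;> simp
      all_goals simp; ring

lemma union_convex : Convex ℝ (⋃ S ∈ Del, convexHull ℝ (pt '' (S : Set (Fin 6)))) := by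
  rw [union_eq]
  rintro u ⟨u1, u2, u3⟩ v ⟨v1, v2, v3⟩ a b ha hb hab
  simp only [Set.mem_ofPred_eq, PiLp.add_apply, PiLp.smul_apply, smul_eq_mul]
  refine ⟨by positivity, by positivity, ?_⟩
  nlinarith [mul_nonneg ha (sub_nonneg.2 u3), mul_nonneg hb (sub_nonneg.2 v3)]

lemma x0_mem : x0 ∈ (⋃ S ∈ Del, convexHull ℝ (pt '' (S : Set (Fin 6)))) := by
  rw [union_eq]
  simp only [Set.mem_ofPred_eq, x0_zero, x0_one]
  norm_num

lemma span_line {H : Finset (Fin 6)} {a b c : ℤ} (h : ∀ v ∈ H, a * pxZ v + b * pyZ v + c = 0)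
    {z : EuclideanSpace ℝ (Fin 2)} (hz : z ∈ affineSpan ℝ (pt '' (H : Set (Fin 6)))) :
    (a : ℝ) * z 0 + b * z 1 + c = 0 := by
  refine affineSpan_induction (p := fun z : EuclideanSpace ℝ (Fin 2) =>
    (a : ℝ) * z 0 + b * z 1 + c = 0) hz ?_ ?_
  · rintro _ ⟨v, hv, rfl⟩
    simp only [pt_zero, pt_one]
    exact_mod_cast h v hv
  · intro t u v w hu hv hw
    simp only [vsub_eq_sub, vadd_eq_add, PiLp.add_apply, PiLp.smul_apply, PiLp.sub_apply,
      smul_eq_mul]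
    linear_combination t * hu - t * hv + hw

def lns : List (ℤ × ℤ × ℤ) := [(3, 1, -33), (-1, 2, -3), (-2, -3, 57), (0, 1, 0), (-3, -5, 90),
  (3, -5, 0), (5, 8, -150), (-1, -1, 30), (5, 2, -60), (-8, -3, 90), (1, 0, 0), (-2, 3, 0)]

lemma edge_line : ∀ H : Finset (Fin 6), Face H → H.card + 1 = 3 →
    ∃ t ∈ lns, (∀ v ∈ H, t.1 * pxZ v + t.2.1 * pyZ v + t.2.2 = 0) ∧
      t.1 * 10 + t.2.1 * 10 + t.2.2 ≠ 0 := by decide +kernel

lemma x0_generic {H : Finset (Fin 6)} (hH : Face H) (hc : H.card + 1 = 3) :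
    x0 ∉ affineSpan ℝ (pt '' (H : Set (Fin 6))) := by
  obtain ⟨t, -, h1, h2⟩ := edge_line H hH hc
  intro hz
  have := span_line h1 hz
  simp only [x0_zero, x0_one] at this
  exact h2 (by exact_mod_cast this)

lemma not_opp {H : Finset (Fin 6)} {a b c : ℤ} (h : ∀ v ∈ H, a * pxZ v + b * pyZ v + c = 0)
    (v : Fin 6) (h1 : 0 < a * 10 + b * 10 + c) (h2 : 0 < a * pxZ v + b * pyZ v + c) :
    ¬ (affineSpan ℝ (pt '' (H : Set (Fin 6)))).SOppSide x0 (pt v) := by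
  intro hs
  obtain ⟨q, hq, t, ⟨t0, t1⟩, rfl⟩ := AffineSubspace.wOppSide_iff_exists_wbtw.1 hs.wOppSide
  have := span_line h hq
  simp only [AffineMap.lineMap_apply, vsub_eq_sub, vadd_eq_add, PiLp.add_apply, PiLp.smul_apply,
    PiLp.sub_apply, smul_eq_mul, x0_zero, x0_one, pt_zero, pt_one] at this
  have h1' : (0 : ℝ) < a * 10 + b * 10 + c := by exact_mod_cast h1
  have h2' : (0 : ℝ) < a * pxZ v + b * pyZ v + c := by exact_mod_cast h2
  have e : (1 - t) * ((a : ℝ) * 10 + b * 10 + c) + t * (a * pxZ v + b * pyZ v + c) = 0 := by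
    linear_combination this
  rcases eq_or_lt_of_le t0 with h0 | h0
  · subst h0; linarith
  · have := mul_pos h0 h2'
    have := mul_nonneg (sub_nonneg.2 t1) h1'.le
    linarith

end Pool.Agent.H401Z.Vis
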